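import Mathlib
import Pool.Agent.Q185.PC.Stm

/-! Basic facts on walls (project PC of helper185). -/

set_option autoImplicit false

open Set Filter Topology

namespace Pool.Agent.Q175.PC

open Pool.Agent.Q185.PC

variable {Q : Type} [TopologicalSpace Q]

theorem sep_symm {F : Set Q} {x y : Q} (h : Sep F x y) : Sep F y x := by
  obtain ⟨hx, hy, h1⟩ := h
  refine ⟨hy, hx, fun h2 => h1 ?_⟩
  have e := connectedComponentIn_eq h2
  rw [← e]
  exact mem_connectedComponentIn hy

theorem eqv_symm {FF : Set (Set Q)} {x y : Q} (h : Eqv FF x y) : Eqv FF y x :=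
  fun F hF hs => h F hF (sep_symm hs)

theorem sep_open [LocallyConnectedSpace Q] {F : Set Q} (hF : IsClosed F) (x : Q) :
    IsOpen {y | Sep F x y} := by
  rw [isOpen_iff_forall_mem_open]
  intro y hy
  obtain ⟨hx, hyF, h1⟩ := hy
  refine ⟨connectedComponentIn Fᶜ y, ?_, hF.isOpen_compl.connectedComponentIn,
    mem_connectedComponentIn hyF⟩
  intro z hz
  have hzF : z ∉ F := connectedComponentIn_subset _ _ hz
  refine ⟨hx, hzF, fun h2 => h1 ?_⟩
  have e1 := connectedComponentIn_eq h2
  have e2 := connectedComponentIn_eq hz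
  rw [e1, ← e2]
  exact mem_connectedComponentIn hyF

/-- a preconnected set which misses `F` and contains `x` is in the component of `x` -/
theorem sub_comp {F B : Set Q} {x : Q} (hB : IsPreconnected B) (hBF : ∀ z ∈ B, z ∉ F)
    (hx : x ∈ B) : B ⊆ connectedComponentIn Fᶜ x :=
  hB.subset_connectedComponentIn hx hBF

theorem cls_closed [LocallyConnectedSpace Q] {FF : Set (Set Q)} (hW : Walls FF) (x : Q) :
    IsClosed {z | Eqv FF x z} := by
  have : {z | Eqv FF x z} = ⋂ F ∈ FF, {z | Sep F x z}ᶜ := by
    ext z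
    simp only [Set.mem_ofPred_eq, Eqv, Set.mem_iInter, Set.mem_compl_iff]
  rw [this]
  exact isClosed_biInter fun F hF => (sep_open (hW.closed F hF) x).isClosed_compl

end Pool.Agent.Q175.PC
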