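import Mathlib
import Pool.Agent.Q175.PC.Basic

/-! Medians (project PC of helper185). -/

set_option autoImplicit false

open Set Filter Topology

namespace Pool.Agent.Q175.PC

open Pool.Agent.Q185.PC

variable {Q : Type} [TopologicalSpace Q]

theorem sep_open₂ [LocallyConnectedSpace Q] {F : Set Q} (hF : IsClosed F) :
    IsOpen {p : Q × Q | Sep F p.1 p.2} := by
  rw [isOpen_iff_forall_mem_open]
  rintro ⟨x, y⟩ h
  have hx : x ∉ F := h.1
  have hy : y ∉ F := h.2.1
  have h1 : y ∉ connectedComponentIn Fᶜ x := h.2.2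
  refine ⟨connectedComponentIn Fᶜ x ×ˢ connectedComponentIn Fᶜ y, ?_,
    hF.isOpen_compl.connectedComponentIn.prod hF.isOpen_compl.connectedComponentIn,
    ⟨mem_connectedComponentIn hx, mem_connectedComponentIn hy⟩⟩
  rintro ⟨z, w⟩ ⟨hz, hw⟩
  have hz1 : z ∈ connectedComponentIn Fᶜ x := hz
  have hw1 : w ∈ connectedComponentIn Fᶜ y := hw
  have hzF : z ∉ F := connectedComponentIn_subset _ _ hz1
  have hwF : w ∉ F := connectedComponentIn_subset _ _ hw1
  refine ⟨hzF, hwF, fun h2 => h1 ?_⟩
  have h2' : w ∈ connectedComponentIn Fᶜ z := h2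
  rw [connectedComponentIn_eq hz1, connectedComponentIn_eq h2', ← connectedComponentIn_eq hw1]
  exact mem_connectedComponentIn hy

theorem sep_congr {F : Set Q} {x y z : Q} (h : y ∈ connectedComponentIn Fᶜ x) :
    Sep F x z ↔ Sep F y z := by
  have hy : y ∉ F := connectedComponentIn_subset _ _ h
  have hx : x ∉ F := by
    by_contra hcon
    have : connectedComponentIn Fᶜ x = ∅ := connectedComponentIn_eq_empty (by simpa using hcon)
    rw [this] at h
    exact h
  unfold Pool.Agent.Q185.PC.Sep
  rw [connectedComponentIn_eq h]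
  tauto

/-- the complement of a component of the complement of a connected set is connected -/
theorem compl_comp [ConnectedSpace Q] [LocallyConnectedSpace Q] {F : Set Q} (hF : IsClosed F)
    (hc : IsConnected F) {x : Q} (hx : x ∉ F) :
    IsPreconnected (connectedComponentIn Fᶜ x)ᶜ := by
  obtain ⟨f0, hf0⟩ := hc.nonempty
  apply isPreconnected_of_forall f0
  intro y hy
  by_cases hyF : y ∈ F
  · refine ⟨F, ?_, hf0, hyF, hc.isPreconnected⟩
    intro z hz hzD
    exact connectedComponentIn_subset _ _ hzD hz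
  · set E := connectedComponentIn Fᶜ y with hE
    have hyE : y ∈ E := mem_connectedComponentIn hyF
    have hEo : IsOpen E := hF.isOpen_compl.connectedComponentIn
    have hEF : E ⊆ Fᶜ := connectedComponentIn_subset _ _
    obtain ⟨q, hqE, hqF⟩ : ∃ q, q ∈ closure E ∧ q ∈ F := by
      by_contra hcon
      push Not at hcon
      have h1 : closure E ⊆ E :=
        (isPreconnected_connectedComponentIn.closure).subset_connectedComponentIn
          (subset_closure hyE) hcon
      have h2 : IsClosed E := isClosed_of_closure_subset h1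
      have h3 : E = univ := IsClopen.eq_univ ⟨h2, hEo⟩ ⟨y, hyE⟩
      have h4 : f0 ∈ E := by rw [h3]; trivial
      exact hEF h4 hf0
    refine ⟨insert q E ∪ F, ?_, Or.inr hf0, Or.inl (Or.inr hyE), ?_⟩
    · rintro z ((rfl | hz) | hz) hzD
      · exact connectedComponentIn_subset _ _ hzD hqF
      · apply hy
        rw [connectedComponentIn_eq hzD, ← connectedComponentIn_eq hz]
        exact hyE
      · exact connectedComponentIn_subset _ _ hzD hz
    · have h5 : IsPreconnected (insert q E) :=
        isPreconnected_connectedComponentIn.subset_closure (subset_insert _ _)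
          (insert_subset hqE subset_closure)
      exact h5.union q (mem_insert _ _) hqF hc.isPreconnected

/-- the walls `F` and `G` are different and hence `G` is in a component of the complement -/
theorem wall_in {FF : Set (Set Q)} (hW : Walls FF) {F G : Set Q} (hF : F ∈ FF) (hG : G ∈ FF)
    (hne : F ≠ G) {g : Q} (hg : g ∈ G) : G ⊆ connectedComponentIn Fᶜ g :=
  (hW.conn G hG).isPreconnected.subset_connectedComponentIn hg
    (fun z hz hzF => Set.disjoint_left.1 (hW.disj F hF G hG hne) hzF hz)

/-- `F` separates `z` from two of the points -/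
def Bad (a b c : Q) (F : Set Q) (z : Q) : Prop :=
  (Sep F z a ∧ Sep F z b) ∨ (Sep F z a ∧ Sep F z c) ∨ (Sep F z b ∧ Sep F z c)

theorem bad_open [LocallyConnectedSpace Q] {F : Set Q} (hF : IsClosed F) (a b c : Q) :
    IsOpen {z | Bad a b c F z} := by
  have h : ∀ u : Q, IsOpen {z | Sep F z u} := by
    intro u
    have : {z | Sep F z u} = {z | Sep F u z} := by
      ext z
      exact ⟨sep_symm, sep_symm⟩
    rw [this]
    exact sep_open hF u
  exact ((h a).inter (h b)).union (((h a).inter (h c)).union ((h b).inter (h c)))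

theorem med_iff {FF : Set (Set Q)} {a b c z : Q} : Med FF a b c z ↔ ∀ F ∈ FF, ¬ Bad a b c F z := by
  unfold Med Bad
  refine forall₂_congr fun F _ => ?_
  tauto

theorem bad_common {a b c : Q} {F F' : Set Q} {z z' : Q} (h : Bad a b c F z)
    (h' : Bad a b c F' z') : ∃ u, Sep F z u ∧ Sep F' z' u := by
  rcases h with ⟨h1, h2⟩ | ⟨h1, h2⟩ | ⟨h1, h2⟩ <;>
    rcases h' with ⟨h3, h4⟩ | ⟨h3, h4⟩ | ⟨h3, h4⟩ <;>
    first
      | exact ⟨_, h1, h3⟩
      | exact ⟨_, h1, h4⟩
      | exact ⟨_, h2, h3⟩
      | exact ⟨_, h2, h4⟩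

theorem s2 : S2 := by
  classical
  intro Q _ _ _ _ _ FF hW
  refine ⟨?_, ?_, ?_⟩
  · have h : {p : Q × Q × Q × Q | Med FF p.1 p.2.1 p.2.2.1 p.2.2.2} =
        ⋂ F ∈ FF, {p : Q × Q × Q × Q | Bad p.1 p.2.1 p.2.2.1 F p.2.2.2}ᶜ := by
      ext p
      simp only [Set.mem_ofPred_eq, Set.mem_iInter, Set.mem_compl_iff]
      exact med_iff
    rw [h]
    refine isClosed_biInter fun F hF => IsOpen.isClosed_compl ?_
    have h2 := sep_open₂ (hW.closed F hF)
    have ha : IsOpen {p : Q × Q × Q × Q | Sep F p.2.2.2 p.1} :=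
      h2.preimage (f := fun p : Q × Q × Q × Q => (p.2.2.2, p.1)) (by fun_prop)
    have hb : IsOpen {p : Q × Q × Q × Q | Sep F p.2.2.2 p.2.1} :=
      h2.preimage (f := fun p : Q × Q × Q × Q => (p.2.2.2, p.2.1)) (by fun_prop)
    have hc : IsOpen {p : Q × Q × Q × Q | Sep F p.2.2.2 p.2.2.1} :=
      h2.preimage (f := fun p : Q × Q × Q × Q => (p.2.2.2, p.2.2.1)) (by fun_prop)
    exact (ha.inter hb).union ((ha.inter hc).union (hb.inter hc))
  · intro a b c
    by_contra hcon
    push Not at hcon
    have hcov : ∀ z, ∃ F ∈ FF, Bad a b c F z := by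
      intro z
      have := hcon z
      rw [med_iff] at this
      push Not at this
      exact this
    obtain ⟨t, ht, htf⟩ : ∃ t : Finset (Set Q), (∀ F ∈ t, F ∈ FF) ∧ ∀ z, ∃ F ∈ t, Bad a b c F z := by
      obtain ⟨t, ht⟩ := isCompact_univ.elim_finite_subcover
        (fun F : FF => {z | Bad a b c F.1 z}) (fun F => bad_open (hW.closed F.1 F.2) a b c) (by
          intro z _
          obtain ⟨F, hF, hb⟩ := hcov z
          exact Set.mem_iUnion.2 ⟨⟨F, hF⟩, hb⟩)
      refine ⟨t.image Subtype.val, ?_, ?_⟩
      · intro F hF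
        obtain ⟨G, _, rfl⟩ := Finset.mem_image.1 hF
        exact G.2
      · intro z
        have := ht (Set.mem_univ z)
        simp only [Set.mem_iUnion, exists_prop] at this
        obtain ⟨G, hG, hb⟩ := this
        exact ⟨G.1, Finset.mem_image_of_mem _ hG, hb⟩
    have htn : t.Nonempty := by
      obtain ⟨F, hF, _⟩ := htf a
      exact ⟨F, hF⟩
    -- the choice
    have hch : ∀ F : Set Q, ∃ q : Q × Set Q, F ∈ t → q.1 ∈ F ∧ q.2 ∈ t ∧ Bad a b c q.2 q.1 := by
      intro F
      by_cases hF : F ∈ t
      · obtain ⟨z, hz⟩ := (hW.conn F (ht F hF)).nonempty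
        obtain ⟨G, hG, hb⟩ := htf z
        exact ⟨(z, G), fun _ => ⟨hz, hG, hb⟩⟩
      · exact ⟨(a, F), fun h => absurd h hF⟩
    choose q hq using hch
    obtain ⟨F, hFmax⟩ := t.exists_maximalFor (fun F => connectedComponentIn (q F).2ᶜ (q F).1) htn
    have hF : F ∈ t := hFmax.prop
    obtain ⟨hp, hF't, hbad⟩ := hq F hF
    set F' := (q F).2 with hF'
    set z := (q F).1 with hz
    obtain ⟨hp', hF''t, hbad'⟩ := hq F' hF't
    set F'' := (q F').2 with hF''
    set z' := (q F').1 with hz'
    -- now `z` is in `F`, bad for `F'`; `z'` in `F'`, bad for `F''`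
    have hzF' : z ∉ F' := by
      rcases hbad with ⟨h, _⟩ | ⟨h, _⟩ | ⟨h, _⟩ <;> exact h.1
    have hz'F'' : z' ∉ F'' := by
      rcases hbad' with ⟨h, _⟩ | ⟨h, _⟩ | ⟨h, _⟩ <;> exact h.1
    have hne : F' ≠ F'' := by
      intro h
      rw [← h] at hz'F''
      exact hz'F'' hp'
    obtain ⟨u, hu, hu'⟩ := bad_common hbad hbad'
    -- `F''` lies in a component `D` of the complement of `F'`
    obtain ⟨g, hg⟩ := (hW.conn F'' (ht _ hF''t)).nonempty
    have hgF' : g ∉ F' := fun h => Set.disjoint_left.1 (hW.disj F' (ht _ hF't) F'' (ht _ hF''t) hne) h hg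
    have hD := wall_in hW (ht _ hF't) (ht _ hF''t) hne hg
    have hDc := compl_comp (hW.closed F' (ht _ hF't)) (hW.conn F' (ht _ hF't)) hgF'
    set D := connectedComponentIn F'ᶜ g with hDdef
    -- `z'` in `Dᶜ`
    have hz'D : z' ∈ Dᶜ := fun h => connectedComponentIn_subset _ _ h hp'
    have hsub : Dᶜ ⊆ connectedComponentIn F''ᶜ z' :=
      hDc.subset_connectedComponentIn hz'D (fun w hw hwF => hw (hD hwF))
    by_cases hzD : z ∈ D
    · -- contradiction: `u` is in `Dᶜ`
      have huD : u ∈ Dᶜ := by
        intro h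
        apply hu.2.2
        rw [← connectedComponentIn_eq hzD]
        exact h
      exact hu'.2.2 (hsub huD)
    · -- `W ⊆ W'`
      have hWsub : connectedComponentIn F'ᶜ z ⊆ Dᶜ := by
        intro w hw hwD
        apply hzD
        rw [hDdef, connectedComponentIn_eq hwD, ← connectedComponentIn_eq hw]
        exact mem_connectedComponentIn hzF'
      have hle : connectedComponentIn F'ᶜ z ≤ connectedComponentIn F''ᶜ z' := hWsub.trans hsub
      have hmx := hFmax.le_of_le hF't hle
      -- `z'` is in the second but not in the first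
      have h1 : z' ∈ connectedComponentIn F''ᶜ z' := hsub hz'D
      have h2 : z' ∈ connectedComponentIn F'ᶜ z := hmx h1
      exact connectedComponentIn_subset _ _ h2 hp'
  · intro hS a b c z z' hm hm' F hF hsep
    rw [med_iff] at hm hm'
    have hzF : z ∉ F := hsep.1
    -- a point `u` of the triple in `F`
    have hu : ∃ u, (u = a ∨ u = b ∨ u = c) ∧ u ∈ F := by
      by_contra hcon
      push Not at hcon
      have hor : ∀ u, (u = a ∨ u = b ∨ u = c) → Sep F z u ∨ Sep F z' u := by
        intro u hu
        by_contra h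
        push Not at h
        obtain ⟨h1, h2⟩ := h
        have huF := hcon u hu
        have h3 : u ∈ connectedComponentIn Fᶜ z := by
          by_contra h3
          exact h1 ⟨hzF, huF, h3⟩
        have h4 : u ∈ connectedComponentIn Fᶜ z' := by
          by_contra h4
          exact h2 ⟨hsep.2.1, huF, h4⟩
        apply hsep.2.2
        rw [connectedComponentIn_eq h3, ← connectedComponentIn_eq h4]
        exact mem_connectedComponentIn hsep.2.1
      have h1 := hm F hF
      have h2 := hm' F hF
      have ha := hor a (Or.inl rfl)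
      have hb := hor b (Or.inr (Or.inl rfl))
      have hc := hor c (Or.inr (Or.inr rfl))
      unfold Bad at h1 h2
      tauto
    obtain ⟨u, _, huF⟩ := hu
    obtain ⟨G, hG, hGs⟩ := hS F hF u huF z hzF
    have hne : F ≠ G := by
      intro h
      exact hGs.1 (h ▸ huF)
    obtain ⟨g, hg⟩ := (hW.conn G hG).nonempty
    have hgF : g ∉ F := fun h => Set.disjoint_left.1 (hW.disj F hF G hG hne) h hg
    have hD := wall_in hW hF hG hne hg
    have hDc := compl_comp (hW.closed F hF) (hW.conn F hF) hgF
    set D := connectedComponentIn Fᶜ g with hDdef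
    have huD : u ∈ Dᶜ := fun h => connectedComponentIn_subset _ _ h huF
    have hsub : Dᶜ ⊆ connectedComponentIn Gᶜ u :=
      hDc.subset_connectedComponentIn huD (fun w hw hwG => hw (hD hwG))
    have hzD : z ∈ D := by
      by_contra hcon
      exact hGs.2.2 (hsub hcon)
    have hDz : D = connectedComponentIn Fᶜ z := connectedComponentIn_eq hzD
    -- every point not in `D` is separated from `z` by `G`
    have hall : ∀ w, w ∉ D → Sep G z w := by
      intro w hw
      have h1 := hsub hw
      exact sep_symm ((sep_congr h1).1 hGs)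
    have hnot : ∀ w, ¬ Sep F z' w → w ∉ D := by
      intro w hw hwD
      apply hw
      have hwF : w ∉ F := connectedComponentIn_subset _ _ hwD
      refine ⟨hsep.2.1, hwF, fun h => hsep.2.2 ?_⟩
      rw [← hDz, hDdef, connectedComponentIn_eq hwD, ← connectedComponentIn_eq h]
      exact mem_connectedComponentIn hsep.2.1
    have h1 := hm G hG
    have h2 := hm' F hF
    have ha : ¬ Sep F z' a → Sep G z a := fun h => hall a (hnot a h)
    have hb : ¬ Sep F z' b → Sep G z b := fun h => hall b (hnot b h)
    have hc : ¬ Sep F z' c → Sep G z c := fun h => hall c (hnot c h)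
    unfold Bad at h1 h2
    tauto

end Pool.Agent.Q175.PC
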