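import Mathlib
import Pool.Agent.Q175.PC.Basic

/-! The map is constant on the classes (project PC of helper185). -/

set_option autoImplicit false

open Set Filter Topology

namespace Pool.Agent.Q175.PC

open Pool.Agent.Q185.PC

theorem const_of_chart {X Q : Type} [TopologicalSpace X] [TopologicalSpace Q]
    {O : Set ℝ} {c : ℝ → X} {f : Q → X} (hS : Sharp (wallsOf f O c)) {z w : Q}
    (hz : f z ∈ c '' O) (h : Eqv (wallsOf f O c) z w) : f w = f z := by
  obtain ⟨t, ht, htz⟩ := hz
  set F := connectedComponentIn (f ⁻¹' {c t}) z with hF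
  have hFm : F ∈ wallsOf f O c := ⟨z, t, ht, htz.symm, rfl⟩
  have hzF : z ∈ F := mem_connectedComponentIn (by simp [htz])
  by_cases hw : w ∈ F
  · have := connectedComponentIn_subset _ _ hw
    simp only [Set.mem_preimage, Set.mem_singleton_iff] at this
    rw [this, htz]
  · obtain ⟨G, hG, hs⟩ := hS F hFm z hzF w hw
    exact absurd hs (h G hG)

theorem claim (h3 : S3) {X Q : Type} [TopologicalSpace X] [T2Space X] [TopologicalSpace Q]
    [CompactSpace Q] [T2Space Q] [ConnectedSpace Q] [LocallyConnectedSpace Q] {O : Set ℝ}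
    {c : ℝ → X} {f : Q → X} (hf : Continuous f) (hW : Walls (wallsOf f O c)) {x : Q}
    (hE : ∀ z, Eqv (wallsOf f O c) x z → f z ∉ c '' O) {B : ℝ → Q} (hB : Continuous B)
    {t1 t2 : ℝ} (h12 : t1 < t2) (e1 : Eqv (wallsOf f O c) x (B t1))
    (e2 : Eqv (wallsOf f O c) x (B t2))
    (hgap : ∀ t, t1 < t → t < t2 → ¬ Eqv (wallsOf f O c) x (B t)) : f (B t1) = f (B t2) := by
  by_contra hne
  obtain ⟨N, N', hN, hN', hmN, hmN', hd⟩ := t2_separation hne
  set A := connectedComponentIn (f ⁻¹' N) (B t1) with hA
  set A' := connectedComponentIn (f ⁻¹' N') (B t2) with hA'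
  have hAo : IsOpen A := (hN.preimage hf).connectedComponentIn
  have hAo' : IsOpen A' := (hN'.preimage hf).connectedComponentIn
  have hAm : B t1 ∈ A := mem_connectedComponentIn hmN
  have hAm' : B t2 ∈ A' := mem_connectedComponentIn hmN'
  -- points near the ends
  obtain ⟨r, hr1, hr2, hrA⟩ : ∃ r, t1 < r ∧ r < (t1 + t2) / 2 ∧ B r ∈ A := by
    have hU : IsOpen (B ⁻¹' A) := hAo.preimage hB
    obtain ⟨δ, hδ, hδs⟩ := Metric.isOpen_iff.1 hU t1 hAm
    refine ⟨t1 + min (δ / 2) ((t2 - t1) / 4), ?_, ?_, ?_⟩
    · have : 0 < min (δ / 2) ((t2 - t1) / 4) := lt_min (by linarith) (by linarith)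
      linarith
    · have := min_le_right (δ / 2) ((t2 - t1) / 4)
      linarith
    · apply hδs
      rw [Metric.mem_ball, Real.dist_eq]
      have h0 : 0 < min (δ / 2) ((t2 - t1) / 4) := lt_min (by linarith) (by linarith)
      have := min_le_left (δ / 2) ((t2 - t1) / 4)
      rw [add_sub_cancel_left, abs_of_pos h0]
      linarith
  obtain ⟨r', hr1', hr2', hrA'⟩ : ∃ r', (t1 + t2) / 2 < r' ∧ r' < t2 ∧ B r' ∈ A' := by
    have hU : IsOpen (B ⁻¹' A') := hAo'.preimage hB
    obtain ⟨δ, hδ, hδs⟩ := Metric.isOpen_iff.1 hU t2 hAm'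
    refine ⟨t2 - min (δ / 2) ((t2 - t1) / 4), ?_, ?_, ?_⟩
    · have := min_le_right (δ / 2) ((t2 - t1) / 4)
      linarith
    · have : 0 < min (δ / 2) ((t2 - t1) / 4) := lt_min (by linarith) (by linarith)
      linarith
    · apply hδs
      rw [Metric.mem_ball, Real.dist_eq]
      have h0 : 0 < min (δ / 2) ((t2 - t1) / 4) := lt_min (by linarith) (by linarith)
      have := min_le_left (δ / 2) ((t2 - t1) / 4)
      rw [sub_sub_cancel_left, abs_neg, abs_of_pos h0]
      linarith
  have hrr : r ≤ r' := by linarith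
  have hK1 : IsCompact (B '' Icc r r') := isCompact_Icc.image hB
  have hK2 : IsConnected (B '' Icc r r') :=
    (isConnected_Icc hrr).image _ hB.continuousOn
  obtain ⟨F, hFm, hxF, hdis⟩ := h3 Q (wallsOf f O c) hW (B '' Icc r r') x hK1 hK2 (by
    rintro k ⟨s, ⟨hs1, hs2⟩, rfl⟩
    have := hgap s (by linarith) (by linarith)
    unfold Eqv at this
    push Not at this
    exact this)
  have hFc : ∃ t ∈ O, ∀ z ∈ F, f z = c t := by
    obtain ⟨z0, t, ht, _, rfl⟩ := hFm
    refine ⟨t, ht, fun z hz => ?_⟩
    have := connectedComponentIn_subset _ _ hz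
    simpa using this
  obtain ⟨t, ht, hFt⟩ := hFc
  have hin : ∀ u, Eqv (wallsOf f O c) x u → u ∈ connectedComponentIn Fᶜ x := by
    intro u hu
    have hs := hu F hFm
    have huF : u ∉ F := by
      intro huF
      exact hE u hu ⟨t, ht, (hFt u huF).symm⟩
    by_contra hcon
    exact hs ⟨hxF, huF, hcon⟩
  have hmeet : ∀ (C : Set Q) (u v : Q), IsPreconnected C → u ∈ C → v ∈ C →
      Eqv (wallsOf f O c) x u → v ∈ B '' Icc r r' → ∃ q ∈ C, q ∈ F := by
    intro C u v hC hu hv hxu hvK
    by_contra hcon
    push Not at hcon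
    have h1 := sub_comp hC hcon hu
    have h2 := connectedComponentIn_eq (hin u hxu)
    rw [← h2] at h1
    exact Set.disjoint_left.1 hdis hvK (h1 hv)
  obtain ⟨q, hq, hqF⟩ := hmeet A (B t1) (B r) isPreconnected_connectedComponentIn hAm hrA e1
    ⟨r, ⟨le_rfl, hrr⟩, rfl⟩
  obtain ⟨q', hq', hqF'⟩ := hmeet A' (B t2) (B r') isPreconnected_connectedComponentIn hAm' hrA' e2
    ⟨r', ⟨hrr, le_rfl⟩, rfl⟩
  have i1 : c t ∈ N := by
    have := connectedComponentIn_subset _ _ hq
    rw [← hFt q hqF]; exact this
  have i2 : c t ∈ N' := by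
    have := connectedComponentIn_subset _ _ hq'
    rw [← hFt q' hqF']; exact this
  exact Set.disjoint_left.1 hd i1 i2

theorem s5 : S5 := by
  classical
  intro h3 X Q _ _ _ _ _ _ _ O c f hC hf hW hS x y hxy
  by_cases hfx : f x ∈ c '' O
  · exact (const_of_chart hS hfx hxy).symm
  by_cases hfy : f y ∈ c '' O
  · exact const_of_chart hS hfy (eqv_symm hxy)
  have hE : ∀ z, Eqv (wallsOf f O c) x z → f z ∉ c '' O := by
    intro z hz hcon
    have := const_of_chart hS hcon (eqv_symm hz)
    rw [← this] at hcon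
    exact hfx hcon
  let b : Path x y := PathConnectedSpace.somePath x y
  set B : ℝ → Q := fun t => b.extend t with hBdef
  have hB : Continuous B := b.continuous_extend
  have hB0 : B 0 = x := b.extend_zero
  have hB1 : B 1 = y := b.extend_one
  set T : Set ℝ := {t | t ∈ Icc (0 : ℝ) 1 ∧ Eqv (wallsOf f O c) x (B t)} with hT
  have hTc : IsClosed T := by
    have : T = Icc (0 : ℝ) 1 ∩ B ⁻¹' {z | Eqv (wallsOf f O c) x z} := rfl
    rw [this]
    exact isClosed_Icc.inter ((cls_closed hW x).preimage hB)
  have h0T : (0 : ℝ) ∈ T := by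
    refine ⟨⟨le_rfl, zero_le_one⟩, ?_⟩
    rw [hB0]
    intro F hF hs
    exact hs.2.2 (mem_connectedComponentIn hs.1)
  have h1T : (1 : ℝ) ∈ T := ⟨⟨zero_le_one, le_rfl⟩, by rw [hB1]; exact hxy⟩
  set L : ℝ → ℝ := fun t => sSup (T ∩ Iic t) with hL
  have hLm : ∀ t, 0 ≤ t → L t ∈ T ∩ Iic t := by
    intro t ht
    exact (hTc.inter isClosed_Iic).csSup_mem ⟨0, h0T, ht⟩ ⟨t, fun s hs => hs.2⟩
  have hLu : ∀ t s, s ∈ T → s ≤ t → s ≤ L t := by
    intro t s hs hst
    exact le_csSup ⟨t, fun s hs => hs.2⟩ ⟨hs, hst⟩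
  have hLt : ∀ t ∈ T, L t = t := by
    intro t ht
    exact le_antisymm (hLm t ht.1.1).2 (hLu t t ht le_rfl)
  have hcont : ContinuousOn (fun t => f (B (L t))) (Icc 0 1) := by
    intro t ht
    by_cases htT : t ∈ T
    · rw [ContinuousWithinAt, tendsto_nhds]
      intro N hN hmN
      simp only [hLt t htT] at hmN
      have hU : IsOpen ((fun s => f (B s)) ⁻¹' N) := hN.preimage (hf.comp hB)
      obtain ⟨δ, hδ, hδs⟩ := Metric.isOpen_iff.1 hU t hmN
      rw [mem_nhdsWithin_iff_exists_mem_nhds_inter]
      refine ⟨Metric.ball t δ, Metric.ball_mem_nhds t hδ, ?_⟩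
      rintro s ⟨hs, hs01⟩
      rw [Metric.mem_ball, Real.dist_eq, abs_lt] at hs
      have hin : ∀ r, t - δ < r → r < t + δ → f (B r) ∈ N := by
        intro r h1 h2
        have : r ∈ Metric.ball t δ := by
          rw [Metric.mem_ball, Real.dist_eq, abs_lt]
          constructor <;> linarith
        exact hδs this
      show f (B (L s)) ∈ N
      have hLs := hLm s hs01.1
      have hLs2 : L s ≤ s := hLs.2
      by_cases hc1 : t - δ < L s
      · exact hin _ hc1 (by linarith)
      · push Not at hc1
        have hst : s < t := by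
          by_contra hcon
          push Not at hcon
          have := hLu s t htT hcon
          linarith
        -- the next point of `T`
        have hne : (T ∩ Ici s).Nonempty := ⟨t, htT, hst.le⟩
        have hbd : BddBelow (T ∩ Ici s) := ⟨s, fun r hr => hr.2⟩
        have hum := (hTc.inter isClosed_Ici).csInf_mem hne hbd
        set u := sInf (T ∩ Ici s) with hu
        have hut : u ≤ t := csInf_le hbd ⟨htT, hst.le⟩
        have hus : s ≤ u := hum.2
        have hlt : L s < u := by linarith
        have key := claim h3 hf hW hE hB hlt hLs.1.2 hum.1.2 (by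
          intro r hr1 hr2 hr3
          have hrT : r ∈ T := by
            refine ⟨⟨?_, ?_⟩, hr3⟩
            · have := hLs.1.1.1
              linarith
            · have := hum.1.1.2
              linarith
          rcases le_total r s with h | h
          · have := hLu s r hrT h
            linarith
          · have : u ≤ r := csInf_le hbd ⟨hrT, h⟩
            linarith)
        rw [key]
        exact hin _ (by linarith) (by linarith)
    · -- locally constant
      have hU : IsOpen (Tᶜ) := hTc.isOpen_compl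
      obtain ⟨δ, hδ, hδs⟩ := Metric.isOpen_iff.1 hU t htT
      have : (fun s => f (B (L s))) =ᶠ[𝓝[Icc 0 1] t] fun _ => f (B (L t)) := by
        have hmem : Metric.ball t δ ∈ 𝓝[Icc 0 1] t := mem_nhdsWithin_of_mem_nhds (Metric.ball_mem_nhds t hδ)
        filter_upwards [hmem] with s hs
        have hset : T ∩ Iic s = T ∩ Iic t := by
          ext r
          simp only [Set.mem_inter_iff, Set.mem_Iic, and_congr_right_iff]
          intro hr
          have hnr : r ∉ Metric.ball t δ := fun h => hδs h hr
          rw [Metric.mem_ball, Real.dist_eq, abs_lt] at hs hnr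
          constructor
          · intro h
            by_contra hcon
            push Not at hcon
            exact hnr ⟨by linarith, by linarith⟩
          · intro h
            by_contra hcon
            push Not at hcon
            exact hnr ⟨by linarith, by linarith⟩
        simp only [hL, hset]
      exact (continuousWithinAt_const (b := f (B (L t)))).congr_of_eventuallyEq this rfl
  let γ : C(unitInterval, X) := ⟨fun t => f (B (L t)), by
    have := continuousOn_iff_continuous_domRestrict.1 hcont
    exact this⟩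
  have hγ := hC.path γ (by
    intro t
    exact hE _ (hLm t t.2.1).1.2)
  have h01 := hγ 1
  have h2 : γ 1 = f (B (L 1)) := rfl
  have h3' : γ 0 = f (B (L 0)) := rfl
  rw [h2, h3', hLt 1 h1T, hLt 0 h0T, hB0, hB1] at h01
  exact h01.symm

end Pool.Agent.Q175.PC
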