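import Mathlib
import Pool.Agent.Q185.PC.Stm
import Pool.Agent.Helper475.Kuhn

/-! Infinite dimension (project PC of helper185). -/

set_option autoImplicit false

open Set Filter Topology

namespace Pool.Agent.Q175.PC

open Pool.Agent.Q185.PC

/-- chains in a connected metric space -/
theorem chain {P : Type} [MetricSpace P] [ConnectedSpace P] (a b : P) {δ : ℝ} (hδ : 0 < δ) :
    ∃ (m : ℕ) (ch : ℕ → P), ch 0 = a ∧ ch m = b ∧ ∀ i < m, dist (ch i) (ch (i + 1)) < δ := by
  have h : Relation.ReflTransGen (fun u v : P => dist u v < δ) a b := by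
    refine PreconnectedSpace.induction₂'
      (fun x y : P => Relation.ReflTransGen (fun u v : P => dist u v < δ) x y) ?_ ⟨?_⟩ a b
    · intro x
      filter_upwards [Metric.ball_mem_nhds x hδ] with y hy
      exact ⟨Relation.ReflTransGen.single (by rw [dist_comm]; exact hy),
        Relation.ReflTransGen.single hy⟩
    · intro x y z hxy hyz
      exact hxy.trans hyz
  induction h with
  | refl => exact ⟨0, fun _ => a, rfl, rfl, fun i hi => absurd hi (Nat.not_lt_zero i)⟩
  | @tail u v _ huv ih =>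
    obtain ⟨m, ch, h0, hm, hs⟩ := ih
    refine ⟨m + 1, fun i => if i ≤ m then ch i else v, by simp [h0], by simp, ?_⟩
    intro i hi
    rcases Nat.lt_succ_iff_lt_or_eq.1 hi with h | h
    · have h1 : i ≤ m := h.le
      have h2 : i + 1 ≤ m := h
      simp only [h1, h2, if_true]
      exact hs i h
    · subst h
      simp only [le_refl, if_true]
      rw [if_neg (by omega), hm]
      exact huv

theorem step {P : Type} [MetricSpace P] [ConnectedSpace P] {a b : P} {k s : ℕ}
    (C : Fin s → Set (ℕ → P)) (hcov : ∀ x, ∃ j, x ∈ C j)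
    (hsep : ∀ j, ∀ i < k, (∀ x ∈ C j, x i ≠ a) ∨ (∀ x ∈ C j, x i ≠ b)) {δ : ℝ} (hδ : 0 < δ) :
    ∃ (x : ℕ → P) (Y : ℕ → ℕ → P) (J : ℕ → Fin s), (∀ l ≤ k, Y l ∈ C (J l)) ∧
      (∀ l ≤ k, ∀ i, dist (Y l i) (x i) ≤ δ) ∧ ∀ l ≤ k, ∀ l' ≤ k, J l = J l' → l = l' := by
  classical
  obtain ⟨m, ch, hch0, hchm, hch⟩ := chain a b hδ
  let pt : (ℕ → ℕ) → (ℕ → P) := fun x i => if i < k then ch (x i) else a
  choose jj hjj using hcov
  -- label of a member of the cover
  let D : Fin s → ℕ → Prop := fun j i => i < k ∧ ∀ x ∈ C j, x i ≠ a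
  let lab : Fin s → ℕ := fun j => if h : ∃ i, D j i then Nat.find h else k
  have lab_le : ∀ j, lab j ≤ k := by
    intro j
    simp only [lab]
    split_ifs with h
    · exact (Nat.find_spec h).1.le
    · exact le_rfl
  have lab_spec : ∀ j i, i < k → lab j = i → D j i := by
    intro j i hi h
    simp only [lab] at h
    split_ifs at h with h'
    · rw [← h]; exact Nat.find_spec h'
    · omega
  have lab_min : ∀ j i, D j i → lab j ≤ i := by
    intro j i h
    simp only [lab]
    rw [dif_pos ⟨i, h⟩]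
    exact Nat.find_min' _ h
  obtain ⟨x, hx, hall⟩ := Pool.Agent.Helper475.Kuhn.kuhn k m (fun x => lab (jj (pt x)))
    (fun x _ => lab_le _)
    (by
      intro i hi x _ hxi h
      obtain ⟨_, h2⟩ := lab_spec _ i hi h
      apply h2 _ (hjj (pt x))
      simp only [pt, hi, if_true, hxi, hch0])
    (by
      intro i hi x _ hxi
      apply lab_min
      refine ⟨hi, ?_⟩
      rcases hsep (jj (pt x)) i hi with h | h
      · exact h
      · exfalso
        apply h _ (hjj (pt x))
        simp only [pt, hi, if_true, hxi, hchm])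
  have hall' : ∀ j, ∃ y : ℕ → ℕ, j ≤ k → ((∀ i, i < k → y i = x i ∨ y i = x i + 1) ∧
      lab (jj (pt y)) = j) := by
    intro j
    by_cases hj : j ≤ k
    · obtain ⟨y, h1, _, h3⟩ := hall j hj
      exact ⟨y, fun _ => ⟨h1, h3⟩⟩
    · exact ⟨x, fun h => absurd h hj⟩
  choose y hy using hall'
  refine ⟨pt x, fun l => pt (y l), fun l => jj (pt (y l)), fun l _ => hjj _, ?_, ?_⟩
  · intro l hl i
    by_cases hi : i < k
    · simp only [pt, hi, if_true]
      rcases (hy l hl).1 i hi with h | h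
      · rw [h, dist_self]; exact hδ.le
      · rw [h, dist_comm]
        exact (hch (x i) (hx i hi)).le
    · simp only [pt, hi, if_false, dist_self]
      exact hδ.le
  · intro l hl l' hl' h
    have h1 := (hy l hl).2
    have h2 := (hy l' hl').2
    rw [← h1, ← h2]
    exact congrArg lab h

theorem s8 : S8 := by
  classical
  intro P _ _ _ _ X _ _ _ ι hι hinj n hdim
  obtain ⟨a, b, hab⟩ := exists_pair_ne P
  -- the faces
  have hAc : ∀ (i : ℕ) (p : P), IsClosed (ι '' {x : ℕ → P | x i = p}) := by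
    intro i p
    have h1 : IsClosed {x : ℕ → P | x i = p} := isClosed_eq (continuous_apply i) continuous_const
    exact (h1.isCompact.image hι).isClosed
  let e := Fintype.equivFin (Fin (n + 1) → Bool)
  let U : Fin (Fintype.card (Fin (n + 1) → Bool)) → Set X := fun r =>
    ⋂ i : Fin (n + 1), (ι '' {x : ℕ → P | x i = if e.symm r i then a else b})ᶜ
  obtain ⟨s, V, hVo, hVc, hVr, hVn⟩ := hdim _ U (by
    intro r
    exact isOpen_iInter_of_finite fun i => (hAc _ _).isOpen_compl) (by
    rw [eq_univ_iff_forall]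
    intro p
    rw [Set.mem_iUnion]
    refine ⟨e (fun i => decide (p ∉ ι '' {x : ℕ → P | x i = a})), ?_⟩
    rw [Set.mem_iInter]
    intro i
    rw [Equiv.symm_apply_apply]
    by_cases h : p ∈ ι '' {x : ℕ → P | x i = a}
    · simp only [h, not_true_eq_false, decide_false, Bool.false_eq_true, if_false]
      rintro ⟨y, hy, rfl⟩
      obtain ⟨z, hz, hzy⟩ := h
      have := hinj hzy
      subst this
      exact hab (hz.symm.trans hy)
    · simp only [h, not_false_eq_true, decide_true, if_true]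
      exact h)
  obtain ⟨F, hFc, hFcl, hFV⟩ := exists_iUnion_eq_closed_subset hVo (fun x => Set.toFinite _) hVc
  let C : Fin s → Set (ℕ → P) := fun j => ι ⁻¹' F j
  have hCcl : ∀ j, IsClosed (C j) := fun j => (hFcl j).preimage hι
  have hcov : ∀ x, ∃ j, x ∈ C j := by
    intro x
    have : ι x ∈ ⋃ j, F j := by rw [hFc]; trivial
    obtain ⟨j, hj⟩ := Set.mem_iUnion.1 this
    exact ⟨j, hj⟩
  have hsep : ∀ j, ∀ i < n + 1, (∀ x ∈ C j, x i ≠ a) ∨ (∀ x ∈ C j, x i ≠ b) := by
    intro j i hi
    obtain ⟨r, hr⟩ := hVr j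
    have h1 : ∀ x ∈ C j, x i ≠ if e.symm r ⟨i, hi⟩ then a else b := by
      intro x hx h
      have h2 := hr (hFV j hx)
      have h3 := Set.mem_iInter.1 h2 ⟨i, hi⟩
      exact h3 ⟨x, h, rfl⟩
    by_cases hb : e.symm r ⟨i, hi⟩
    · left
      simpa [hb] using h1
    · right
      simpa [hb] using h1
  have hst := fun q : ℕ => step C hcov hsep (δ := 1 / ((q : ℝ) + 1)) (by positivity)
  choose x Y J h1 h2 h3 using hst
  obtain ⟨x0, φ, hφ, hlim⟩ := CompactSpace.tendsto_subseq x
  have hsmall : Tendsto (fun q : ℕ => 1 / ((φ q : ℝ) + 1)) atTop (𝓝 0) :=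
    (tendsto_one_div_add_atTop_nhds_zero_nat (𝕜 := ℝ)).comp hφ.tendsto_atTop
  have hY : ∀ l ≤ n + 1, Tendsto (fun q => Y (φ q) l) atTop (𝓝 x0) := by
    intro l hl
    rw [tendsto_pi_nhds]
    intro i
    have h4 : Tendsto (fun q => x (φ q) i) atTop (𝓝 (x0 i)) := (tendsto_pi_nhds.1 hlim) i
    rw [tendsto_iff_dist_tendsto_zero] at h4 ⊢
    have h5 := hsmall.add h4
    rw [add_zero] at h5
    refine squeeze_zero (fun q => dist_nonneg) (fun q => ?_) h5
    exact (dist_triangle _ (x (φ q) i) _).trans (add_le_add_left (h2 (φ q) l hl i) _)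
  have hW : (⋂ j ∈ {j : Fin s | x0 ∉ C j}, (C j)ᶜ) ∈ 𝓝 x0 := by
    rw [Filter.biInter_mem (Set.toFinite _)]
    intro j hj
    exact (hCcl j).isOpen_compl.mem_nhds hj
  have hev : ∀ᶠ q in atTop, ∀ l ∈ Finset.range (n + 2), Y (φ q) l ∈
      (⋂ j ∈ {j : Fin s | x0 ∉ C j}, (C j)ᶜ) := by
    rw [Filter.eventually_all_finset]
    intro l hl
    exact (hY l (by have := Finset.mem_range.1 hl; omega)).eventually hW
  obtain ⟨q, hq⟩ := hev.exists
  have hJ : ∀ l ∈ Finset.range (n + 2), x0 ∈ C (J (φ q) l) := by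
    intro l hl
    by_contra hcon
    have h4 := hq l hl
    rw [Set.mem_iInter₂] at h4
    exact h4 _ hcon (h1 (φ q) l (by have := Finset.mem_range.1 hl; omega))
  have hcard : n + 2 ≤ {j : Fin s | ι x0 ∈ V j}.ncard := by
    have h5 : ((Finset.range (n + 2)).image (J (φ q)) : Set (Fin s)) ⊆ {j : Fin s | ι x0 ∈ V j} := by
      intro j hj
      rw [Finset.mem_coe, Finset.mem_image] at hj
      obtain ⟨l, hl, rfl⟩ := hj
      exact hFV _ (hJ l hl)
    have h6 : ((Finset.range (n + 2)).image (J (φ q))).card = n + 2 := by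
      rw [Finset.card_image_of_injOn, Finset.card_range]
      intro l hl l' hl' h
      have e1 := Finset.mem_range.1 hl
      have e2 := Finset.mem_range.1 hl'
      exact h3 (φ q) l (by omega) l' (by omega) h
    rw [← h6, ← Set.ncard_coe_finset]
    exact Set.ncard_le_ncard h5 (Set.toFinite _)
  have := hVn (ι x0)
  omega

end Pool.Agent.Q175.PC
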